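import Pool.Agent.RCM.Stmts

/-! RCM, row FIN: the final statement. -/

set_option autoImplicit false

namespace Pool.Agent.RCM.H68

open Set Pool.Agent.RCM

universe u

section

variable {α : Type u} {m : ℕ} (S : Fin m → Finset α)

/-- the coloured ground set -/
abbrev EE : Type u := (i : Fin m) × {x // x ∈ S i}

/-- the element -/
def vv (e : EE S) : α := (e.2 : α)

theorem vv_inj (c : Fin m) : InjOn (vv S) ((Sigma.fst : EE S → Fin m) ⁻¹' {c}) := by
  rintro ⟨i, x⟩ hi ⟨j, y⟩ hj h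
  rw [mem_preimage, mem_singleton_iff] at hi hj
  simp only at hi hj
  subst hi
  subst hj
  have h1 : x = y := Subtype.ext h
  rw [h1]

theorem vv_image (c : Fin m) : vv S '' ((Sigma.fst : EE S → Fin m) ⁻¹' {c}) = (S c : Set α) := by
  ext x
  constructor
  · rintro ⟨⟨i, y⟩, hi, rfl⟩
    rw [mem_preimage, mem_singleton_iff] at hi
    simp only at hi
    subst hi
    exact y.2
  · intro hx
    exact ⟨⟨c, ⟨x, hx⟩⟩, rfl, rfl⟩

theorem card_fib (c : Fin m) : ((Sigma.fst : EE S → Fin m) ⁻¹' {c}).ncard = (S c).card := by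
  rw [← (vv_inj S c).ncard_image, vv_image, ncard_coe_finset]

/-- one of the matroids on the coloured ground set -/
theorem key (lba : LbaStmt.{u}) (bcl : BclStmt.{u}) (trn : TrnStmt.{u}) (M : Matroid α) (s : ℕ)
    (F : ℕ → ℕ) (hM : ∀ i, M.Indep (S i : Set α)) (hB : Bd M S s F) :
    ∃ M' : Matroid (EE S), (∀ c, M'.Indep ((Sigma.fst : EE S → Fin m) ⁻¹' {c})) ∧
      (∀ N' : Matroid (EE S), Col M' N' (Sigma.fst : EE S → Fin m) s →
        LB M' N' (Sigma.fst : EE S → Fin m) s F) ∧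
      (∀ T, M'.Indep T → InjOn (vv S) T ∧ M.Indep (vv S '' T)) ∧ Monotone F := by
  have hfin : Finite (EE S) := inferInstance
  have hmem : ∀ (T : Set (EE S)), ∀ x ∈ vv S '' T, ∃ i, x ∈ S i := by
    rintro T _ ⟨⟨i, x⟩, _, rfl⟩
    exact ⟨i, x.2⟩
  have hpar : ∀ (R : Type u) (r : α → R), (∀ i, InjOn r (S i : Set α)) →
      (∀ I : Set α, (∀ x ∈ I, ∃ i, x ∈ S i) → InjOn r I → M.Indep I) →
      ∃ M' : Matroid (EE S), (∀ I, M'.Indep I ↔ InjOn (r ∘ vv S) I) ∧
        (∀ c, M'.Indep ((Sigma.fst : EE S → Fin m) ⁻¹' {c})) ∧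
        (∀ T, M'.Indep T → InjOn (vv S) T ∧ M.Indep (vv S '' T)) := by
    intro R r hS h
    have hI : ∀ I, ((Matroid.freeOn univ : Matroid R).comap (r ∘ vv S)).Indep I ↔
        InjOn (r ∘ vv S) I := by
      intro I
      rw [Matroid.comap_indep_iff, Matroid.freeOn_indep_iff]
      exact ⟨fun h => h.2, fun h => ⟨subset_univ _, h⟩⟩
    refine ⟨_, hI, ?_, ?_⟩
    · intro c
      rw [hI]
      refine InjOn.comp (t := (S c : Set α)) (hS c) (vv_inj S c) ?_
      rw [mapsTo_iff_image_subset, vv_image]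
    · intro T hT
      rw [hI] at hT
      refine ⟨hT.of_comp, h _ (hmem T) ?_⟩
      rintro _ ⟨a, ha, rfl⟩ _ ⟨b, hb, rfl⟩ hab
      rw [hT ha hb hab]
  cases hB with
  | any =>
    refine ⟨M.comap (vv S), ?_, fun N' hc => lba _ _ _ _ _ _ hc, ?_, ?_⟩
    · intro c
      rw [Matroid.comap_indep_iff, vv_image]
      exact ⟨hM c, vv_inj S c⟩
    · intro T hT
      rw [Matroid.comap_indep_iff] at hT
      exact ⟨hT.2, hT.1⟩
    · intro x y hxy
      show 3 * x / 2 ≤ 3 * y / 2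
      omega
  | par R hR r hS h =>
    obtain ⟨M', h1, h2, h3⟩ := hpar R r hS h
    refine ⟨M', h2, ?_, h3, ?_⟩
    · intro N' hc
      have := Fintype.ofFinite R
      have e1 := lba _ _ _ _ _ _ hc
      have e2 := trn _ _ _ _ _ _ R _ hc h1
      intro t P X T z hmx hst hun hz
      exact max_le (e1 t P X T z hmx hst hun hz) (e2 t P X T z hmx hst hun hz)
    · intro x y hxy
      refine max_le_max ?_ ?_
      · omega
      · exact Nat.div_le_div_right (Nat.pow_le_pow_left (by omega) 2)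
  | arr R hR r hS h hs =>
    obtain ⟨M', h1, h2, h3⟩ := hpar R r hS h
    refine ⟨M', h2, ?_, h3, ?_⟩
    · intro N' hc
      have := Fintype.ofFinite R
      refine bcl _ _ _ _ _ _ R _ hc h1 ?_
      rw [← Nat.card_eq_fintype_card]
      exact hs
    · intro x y hxy
      refine Nat.add_le_add ?_ (by omega)
      exact Nat.div_le_div_right (Nat.mul_le_mul hxy (by omega))

end

/-- FIN -/
theorem fin (asm : AsmStmt.{u}) (lba : LbaStmt.{u}) (bcl : BclStmt.{u}) (trn : TrnStmt.{u}) :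
    FinStmt.{u} := by
  intro α M N m s τ S F G hM hN hcard hF hG hτ hcond
  classical
  obtain ⟨M', a1, a2, a3, a4⟩ := key S lba bcl trn M s F hM hF
  obtain ⟨N', b1, b2, b3, b4⟩ := key S lba bcl trn N s G hN hG
  have hc : ∀ c, s ≤ ((Sigma.fst : EE S → Fin m) ⁻¹' {c}).ncard := by
    intro c
    rw [card_fib]
    exact hcard c
  have hcond' : (τ < Fintype.card (Fin m) ∧ (τ < F (s - τ) ∨ τ < G (s - τ)) ∨
      τ + 2 ≤ Fintype.card (Fin m) ∧
        τ < F (s - τ) + G (s - τ) + (Fintype.card (Fin m) - τ - 2) * (s - τ)) := by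
    rw [Fintype.card_fin]
    exact hcond
  obtain ⟨T, hT, hTc⟩ := asm (EE S) (Fin m) M' N' (Sigma.fst : EE S → Fin m) s τ F G
    ⟨a1, b1, hc⟩ (a2 N' ⟨a1, b1, hc⟩) (b2 M' ⟨b1, a1, hc⟩) a4 b4 hτ hcond'
  obtain ⟨hinj, hMi⟩ := a3 T hT.indM
  obtain ⟨-, hNi⟩ := b3 T hT.indN
  have hTfin : T.Finite := Set.toFinite T
  have hTne : T.Nonempty := by
    rw [← Set.ncard_pos hTfin]
    omega
  obtain ⟨e0, he0⟩ := hTne
  obtain ⟨J, hJ⟩ : ∃ J : Finset (Fin m), J = hTfin.toFinset.image Sigma.fst := ⟨_, rfl⟩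
  have hJm : ∀ i, i ∈ J ↔ ∃ e ∈ T, e.1 = i := by
    intro i
    rw [hJ, Finset.mem_image]
    simp only [Set.Finite.mem_toFinset]
  have hJc : J.card = T.ncard := by
    rw [hJ, Finset.card_image_of_injOn, Set.ncard_eq_toFinset_card T hTfin]
    intro a ha b hb hab
    rw [Finset.mem_coe, Set.Finite.mem_toFinset] at ha hb
    exact hT.inj ha hb hab
  have hex : ∀ i : Fin m, ∃ e ∈ T, i ∈ J → e.1 = i := by
    intro i
    by_cases hi : i ∈ J
    · obtain ⟨e, he, hei⟩ := (hJm i).1 hi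
      exact ⟨e, he, fun _ => hei⟩
    · exact ⟨e0, he0, fun h => absurd h hi⟩
  choose f hf1 hf2 using hex
  refine ⟨J, fun i => vv S (f i), by rw [hJc]; exact hTc, ?_, ?_, ?_, ?_⟩
  · intro i hi
    have h1 : ∀ e : EE S, ∀ j, e.1 = j → vv S e ∈ S j := by
      rintro ⟨j, x⟩ _ rfl
      exact x.2
    exact h1 (f i) i (hf2 i hi)
  · intro i hi j hj hij
    rw [Finset.mem_coe] at hi hj
    have h1 := hinj (hf1 i) (hf1 j) hij
    rw [← hf2 i hi, ← hf2 j hj, h1]
  · refine hMi.subset ?_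
    rintro _ ⟨i, _, rfl⟩
    exact ⟨f i, hf1 i, rfl⟩
  · refine hNi.subset ?_
    rintro _ ⟨i, _, rfl⟩
    exact ⟨f i, hf1 i, rfl⟩

end Pool.Agent.RCM.H68
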